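import Pool.Agent.Y123.GN.D7
import Pool.Agent.Y123.GN.E8
import Pool.Agent.Y123.ST.Out

/-!
# Relations of bounded degree between the periods of families with big monodromy, over all number fields of bounded degree
-/

set_option autoImplicit false
set_option linter.unusedSectionVars false

open Matrix Module PowerSeries Filter

namespace Pool.Agent.U220.BD

open Pool.Agent.TH127.PT Pool.Agent.Y123.ST Pool.Agent.Y123.SR Pool.Agent.Y113 Pool.Agent.Y113.GG Pool.Agent.Y120.R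
  Pool.Agent.Y123.GN

section blocks

variable {B₀ : Type} [Fintype B₀] [DecidableEq B₀] {k : ℕ} {n : Fin k → ℕ}

/-- the relations of degree at most `d` over `ℚ` are inherited by the elements of the Galois groups -/
def RelG {r : Fin k → ℕ} (d : ℕ) (C₀ : Matrix B₀ B₀ ℂ) (h : ∀ i, Fin (r i) → ℚ⟦X⟧)
    (P : ∀ i, Fin (n i) → Fin (n i) → MvPolynomial (Option (Fin (r i))) ℂ) (t : Fin k → ℕ) : Prop :=
  ∀ g : ∀ i, (Matrix (Fin (n i)) (Fin (n i)) ℂ)ˣ, (∀ i, g i ∈ Gs (h i) (P i)) →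
    Rl ⊥ d (EG C₀ fun i => pM (h i) (P i) (t i : ℝ)) (EG 1 (fun i => (g i : Matrix (Fin (n i)) (Fin (n i)) ℂ)) *
      EG C₀ fun i => pM (h i) (P i) (t i : ℝ))

/-- **The counting theorem.** -/
theorem rel_main (k d e r : ℕ) (ρ n : Fin k → ℕ) (h : ∀ i, Fin (ρ i) → ℚ⟦X⟧) (hF : ∀ i δ, Fam δ (h i)) :
    ∃ c C : ℝ, 0 < c ∧ 0 ≤ C ∧ ∀ P : ∀ i, Fin (n i) → Fin (n i) → MvPolynomial (Option (Fin (ρ i))) ℂ,
    (∀ i a b, (P i a b).totalDegree ≤ e) → ∀ C₀ : Matrix (Fin r) (Fin r) ℂ, ∀ (x : Fin k → ℕ) (N : ℕ), 1 ≤ N →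
    ∀ S : Finset (Fin k → ℕ), (∀ t ∈ S, (∀ i, x i < t i ∧ t i ≤ x i + N) ∧ ¬ RelG d C₀ h P t) →
    (S.card : ℝ) ≤ C * (N : ℝ) ^ (k - 1) * ∑ i, (1 + N / ((x i : ℝ) + N) ^ c) := by
  classical
  obtain ⟨c, C, hc, hC, hmain⟩ := gx (ν := fun i => Fin (n i) × Fin (n i)) (h := h) d e
    ((1 + r * r + 1) ^ (d + 1)) (fun i => hF i _)
  refine ⟨c, C, hc, hC, ?_⟩
  intro P hP C₀ x N hN S hS
  obtain ⟨hbf, hb1⟩ := bot_fin
  obtain ⟨W, hW1, hW2, hKW, hW3⟩ := exists_W' (⊥ : Subfield ℂ) (fun b : Fin r × Fin r => C₀ b.1 b.2)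
  obtain ⟨hp1, hp2⟩ := finrank_pow_le W (d + 1)
  have hWD : Module.finrank ℚ W ≤ 1 + r * r + 1 := by
    refine hW2.trans ?_
    rw [Fintype.card_prod, Fintype.card_fin]
    omega
  have h1W : (1 : ℂ) ∈ W := hKW 1 (⊥ : Subfield ℂ).one_mem
  refine hmain (fun i v => P i v.1 v.2) (fun i v => hP i v.1 v.2) (W ^ (d + 1)) (hp2.trans (Nat.pow_le_pow_left hWD _))
    x N hN S fun t ht => ?_
  obtain ⟨hbox, hnot⟩ := hS t ht
  refine ⟨hbox, ?_⟩
  by_contra hcon
  apply hnot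
  have hval : ∀ i (g : Matrix (Fin (n i)) (Fin (n i)) ℂ) (v : Fin (n i) × Fin (n i)),
      MvPolynomial.aeval (p1 (h i) (t i : ℝ)) (tl (P i) g v) = (g * pM (h i) (P i) (t i : ℝ)) v.1 v.2 := fun i g v =>
    tl_eval (h i) (P i) g _ v
  have hrel : ∀ g : ∀ i, (Matrix (Fin (n i)) (Fin (n i)) ℂ)ˣ, (∀ i, g i ∈ Gs (h i) (P i)) →
      ∀ F : MvPolynomial (Σ i, Fin (n i) × Fin (n i)) ℂ, F.totalDegree ≤ d → (∀ s, F.coeff s ∈ W ^ (d + 1)) →
      MvPolynomial.aeval (fun v : Σ i, Fin (n i) × Fin (n i) => pM (h v.1) (P v.1) (t v.1 : ℝ) v.2.1 v.2.2) F = 0 →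
      MvPolynomial.aeval (fun v : Σ i, Fin (n i) × Fin (n i) =>
        ((g v.1 : Matrix (Fin (n v.1)) (Fin (n v.1)) ℂ) * pM (h v.1) (P v.1) (t v.1 : ℝ)) v.2.1 v.2.2) F = 0 := by
    intro g hg F hFd hFV hF0
    by_contra hne
    refine hcon ⟨F, hFd, hFV, ?_, fun i => tl (P i) (g i), fun i => Prs_sat (hg i).1, ?_⟩
    · rw [MvPolynomial.aeval_eq_eval] at hF0
      exact hF0
    · intro h2
      apply hne
      rw [MvPolynomial.aeval_eq_eval]
      refine Eq.trans ?_ h2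
      congr 2
      funext v
      exact (hval v.1 (g v.1) v.2).symm
  intro g hg
  refine Rl_of hKW (PhiG_DC h1W fun a b => hW3 (a, b))
    (y := fun v : Σ i, Fin (n i) × Fin (n i) => pM (h v.1) (P v.1) (t v.1 : ℝ) v.2.1 v.2.2)
    (y' := fun v : Σ i, Fin (n i) × Fin (n i) =>
      ((g v.1 : Matrix (Fin (n v.1)) (Fin (n v.1)) ℂ) * pM (h v.1) (P v.1) (t v.1 : ℝ)) v.2.1 v.2.2)
    (fun F h2 h3 h4 => hrel g hg F h2 h3 h4) (fun b => PhiG_eval C₀ _ b) fun b => ?_
  rw [EG_mul, Matrix.one_mul]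
  exact PhiG_eval C₀ _ b

/-- from the single blocks to all blocks -/
theorem EGu_Ug {𝒢 : ∀ i, Subgroup (Matrix (Fin (n i)) (Fin (n i)) ℂ)ˣ} {g : ∀ i, (Matrix (Fin (n i)) (Fin (n i)) ℂ)ˣ}
    (h : ∀ i, g i ∈ Ug (𝒢 i)) : EGu B₀ n g ∈ Ug (GG B₀ 𝒢) := by
  classical
  have key : ∀ S : Finset (Fin k), EGu B₀ n (fun j => if j ∈ S then g j else 1) ∈ Ug (GG B₀ 𝒢) := by
    intro S
    induction S using Finset.induction_on with
    | empty =>
      have h1 : (fun j => if j ∈ (∅ : Finset (Fin k)) then g j else 1) =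
          (1 : ∀ i, (Matrix (Fin (n i)) (Fin (n i)) ℂ)ˣ) := by
        funext j
        simp
      rw [h1, map_one]
      exact Subgroup.one_mem _
    | insert i S hi ih =>
      have h1 := (Ug (GG B₀ 𝒢)).mul_mem (em_Ug (B₀ := B₀) ⟨g i, h i, rfl⟩) ih
      have h2 : em B₀ i (g i) * EGu B₀ n (fun j => if j ∈ S then g j else 1) =
          EGu B₀ n (fun j => if j ∈ insert i S then g j else 1) := by
        show EGu B₀ n (Pi.mulSingle i (g i)) * _ = _
        rw [← map_mul]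
        congr 1
        funext j
        rw [Pi.mul_apply]
        by_cases hj : j = i
        · subst hj
          rw [Pi.mulSingle_eq_same, if_neg hi, if_pos (Finset.mem_insert_self _ _), mul_one]
        · rw [Pi.mulSingle_eq_of_ne hj, one_mul]
          by_cases hS : j ∈ S
          · rw [if_pos hS, if_pos (Finset.mem_insert_of_mem hS)]
          · rw [if_neg hS, if_neg (by rw [Finset.mem_insert]; tauto)]
      rwa [h2] at h1
  have h1 := key Finset.univ
  simpa using h1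

/-- **All number fields of degree at most `D` at once.** -/
theorem rel_unip {r : Fin k → ℕ} {D d : ℕ} {C₀ : Matrix B₀ B₀ ℂ} {h : ∀ i, Fin (r i) → ℚ⟦X⟧}
    {P : ∀ i, Fin (n i) → Fin (n i) → MvPolynomial (Option (Fin (r i))) ℂ} {t : Fin k → ℕ}
    (hrel : RelG (d * D ^ D) C₀ h P t) {K : Subfield ℂ} (hKf : FiniteDimensional ℚ K) (hKD : finrank ℚ K ≤ D)
    {g : ∀ i, (Matrix (Fin (n i)) (Fin (n i)) ℂ)ˣ} (hg : ∀ i, g i ∈ Ug (Gs (h i) (P i))) :
    Rl K d (EG C₀ fun i => pM (h i) (P i) (t i : ℝ)) (EG C₀ fun i =>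
      (g i : Matrix (Fin (n i)) (Fin (n i)) ℂ) * pM (h i) (P i) (t i : ℝ)) := by
  have hrelG : ∀ g ∈ Ug (GG B₀ (fun i => Gs (h i) (P i))), Rl ⊥ (d * D ^ D) (EG C₀ fun i => pM (h i) (P i) (t i : ℝ))
      (g * EG C₀ fun i => pM (h i) (P i) (t i : ℝ)) := by
    intro g hg
    obtain ⟨g', hg', rfl⟩ := Ug_le _ hg
    exact hrel g' fun i => hg' i (Set.mem_univ i)
  have h1 := Rl_all hKf hKD hrelG (EGu_Ug (B₀ := B₀) hg)
  rw [EGu_val, EG_mul, Matrix.one_mul] at h1
  exact h1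

end blocks

section absolute

variable {B₀ : Type} [Fintype B₀] [DecidableEq B₀] {k : ℕ} {n : Fin k → ℕ} {K : Subfield ℂ}

theorem map_coeffs {V : Type} [Fintype V] [DecidableEq V] {F : MvPolynomial V ℂ} (hF : ∀ m, F.coeff m ∈ K) {σ : ℂ ≃+* ℂ} (hσ : ∀ x ∈ K, σ x = x)
    (y : V → ℂ) : σ (MvPolynomial.eval y F) = MvPolynomial.eval (fun b => σ (y b)) F := by
  have h4 := eval_aut' σ F y
  have h5 : F.map (σ : ℂ →+* ℂ) = F := by
    ext m
    rw [MvPolynomial.coeff_map]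
    exact hσ _ (hF m)
  rw [h5] at h4
  exact h4

/-- Laurent polynomials which vanish for almost all values of the variable -/
theorem laurent {V : Type} (y : ℂ → V → ℂ) (hy : ∀ b, ∃ (N : ℕ) (q : Polynomial ℂ), ∀ u : ℂ, u ≠ 0 → u ^ N * y u b = q.eval u)
    (F : MvPolynomial V ℂ) : ∃ (N : ℕ) (q : Polynomial ℂ), ∀ u : ℂ, u ≠ 0 → u ^ N * MvPolynomial.eval (y u) F = q.eval u := by
  induction F using MvPolynomial.induction_on with
  | C a =>
    refine ⟨0, Polynomial.C a, fun u _ => ?_⟩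
    rw [MvPolynomial.eval_C, Polynomial.eval_C, pow_zero, one_mul]
  | add p q hp hq =>
    obtain ⟨N, f, hf⟩ := hp
    obtain ⟨N', f', hf'⟩ := hq
    refine ⟨N + N', Polynomial.X ^ N' * f + Polynomial.X ^ N * f', fun u hu => ?_⟩
    rw [map_add, Polynomial.eval_add, Polynomial.eval_mul, Polynomial.eval_mul, Polynomial.eval_pow, Polynomial.eval_pow,
      Polynomial.eval_X, ← hf u hu, ← hf' u hu]
    ring
  | mul_X p b hp =>
    obtain ⟨N, f, hf⟩ := hp
    obtain ⟨N', f', hf'⟩ := hy b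
    refine ⟨N + N', f * f', fun u hu => ?_⟩
    rw [map_mul, MvPolynomial.eval_X, Polynomial.eval_mul, ← hf u hu, ← hf' u hu]
    ring

theorem zpow_laurent (a : ℤ) (c : ℂ) : ∃ (N : ℕ) (q : Polynomial ℂ), ∀ u : ℂ, u ≠ 0 → u ^ N * (u ^ a * c) = q.eval u := by
  refine ⟨a.natAbs, Polynomial.C c * Polynomial.X ^ (a.natAbs + a).toNat, fun u hu => ?_⟩
  rw [Polynomial.eval_mul, Polynomial.eval_C, Polynomial.eval_pow, Polynomial.eval_X, ← zpow_natCast, ← zpow_natCast,
    ← mul_assoc, ← zpow_add₀ hu]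
  have h1 : (((a.natAbs : ℤ) + a).toNat : ℤ) = (a.natAbs : ℤ) + a := by
    rw [Int.toNat_of_nonneg]
    omega
  rw [h1, mul_comm]

/-- a Laurent polynomial which vanishes at the transcendental numbers vanishes at `1` -/
theorem laurent_one (hK : ∀ x ∈ K, IsAlgebraic ℚ x) {V : Type} (y : ℂ → V → ℂ)
    (hy : ∀ b, ∃ (N : ℕ) (q : Polynomial ℂ), ∀ u : ℂ, u ≠ 0 → u ^ N * y u b = q.eval u)
    (F : MvPolynomial V ℂ) (h0 : ∀ u, Transcendental K u → MvPolynomial.eval (y u) F = 0) :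
    MvPolynomial.eval (y 1) F = 0 := by
  obtain ⟨N, q, hq⟩ := laurent y hy F
  have hτ : Transcendental K tpi := tpi_tr hK
  have hq0 : q = 0 := by
    refine Polynomial.eq_zero_of_infinite_isRoot q ?_
    refine Set.infinite_of_injective_forall_mem (f := fun m : ℕ => tpi ^ (m + 1)) ?_ ?_
    · intro a b hab
      by_contra hne
      have hab' : tpi ^ (a + 1) = tpi ^ (b + 1) := hab
      apply hτ
      rcases lt_or_gt_of_ne hne with hlt | hlt
      · refine ⟨Polynomial.X ^ (b + 1) - Polynomial.X ^ (a + 1), ?_, ?_⟩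
        · intro h
          have h1 := congrArg (fun p => Polynomial.coeff p (b + 1)) h
          simp only [Polynomial.coeff_sub, Polynomial.coeff_X_pow, Polynomial.coeff_zero, if_true] at h1
          rw [if_neg (by omega), sub_zero] at h1
          exact one_ne_zero h1
        · rw [map_sub, map_pow, map_pow, Polynomial.aeval_X, hab', sub_self]
      · refine ⟨Polynomial.X ^ (a + 1) - Polynomial.X ^ (b + 1), ?_, ?_⟩
        · intro h
          have h1 := congrArg (fun p => Polynomial.coeff p (a + 1)) h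
          simp only [Polynomial.coeff_sub, Polynomial.coeff_X_pow, Polynomial.coeff_zero, if_true] at h1
          rw [if_neg (by omega), sub_zero] at h1
          exact one_ne_zero h1
        · rw [map_sub, map_pow, map_pow, Polynomial.aeval_X, hab', sub_self]
    · intro m
      show q.IsRoot (tpi ^ (m + 1))
      have h1 : Transcendental K (tpi ^ (m + 1)) := fun h => hτ (h.of_pow (Nat.succ_pos m))
      show q.eval _ = 0
      rw [← hq _ (pow_ne_zero _ tpi_ne), h0 _ h1, mul_zero]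
  have h1 := hq 1 one_ne_zero
  rw [hq0, Polynomial.eval_zero, one_pow, one_mul] at h1
  exact h1

/-- the conditions -/
def Cd (B Q : ∀ i, Matrix (Fin (n i)) (Fin (n i)) ℂ) (w m : Fin k → ℤ) (δ : Fin k → ℂ) (z : ℂ)
    (X : ∀ i, Matrix (Fin (n i)) (Fin (n i)) ℂ) : Prop :=
  ∀ i, X i * Q i * (X i)ᵀ = z ^ (w i) • B i ∧ (Spf (B i) ∨ (X i).det = δ i * z ^ (m i))

/-- the weights of determinants -/
theorem weight {n : ℕ} (hK : ∀ x ∈ K, IsAlgebraic ℚ x) {B Q Z : Matrix (Fin n) (Fin n) ℂ} {w m : ℤ} {δ : ℂ}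
    (hB : ∀ a b, B a b ∈ K) (hQ : ∀ a b, Q a b ∈ K) (hδ : δ ∈ K) (hBu : IsUnit B)
    (h1 : Z * Q * Zᵀ = tpi ^ w • B) (h2 : Z.det = δ * tpi ^ m) : (n : ℤ) * w = 2 * m := by
  have hdK : ∀ A : Matrix (Fin n) (Fin n) ℂ, (∀ a b, A a b ∈ K) → A.det ∈ K := by
    intro A hA
    rw [Matrix.det_apply]
    refine K.sum_mem fun σ _ => ?_
    have h3 : (∏ i, A (σ i) i) ∈ K := K.prod_mem fun i _ => hA _ _
    rcases Int.units_eq_one_or (Equiv.Perm.sign σ) with h4 | h4
    · rw [h4, one_smul]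
      exact h3
    · rw [h4, Units.neg_smul, one_smul]
      exact K.neg_mem h3
  have hBd : B.det ≠ 0 := ((Matrix.isUnit_iff_isUnit_det _).1 hBu).ne_zero
  have h3 := congrArg Matrix.det h1
  rw [det_mul, det_mul, det_transpose, det_smul, Fintype.card_fin, h2] at h3
  have h4 : tpi ≠ 0 := tpi_ne
  have h5 : (tpi ^ w) ^ n * B.det ≠ 0 := mul_ne_zero (pow_ne_zero _ (zpow_ne_zero _ h4)) hBd
  have h6 : δ ≠ 0 ∧ Q.det ≠ 0 := by
    rw [← h3] at h5
    exact ⟨left_ne_zero_of_mul (left_ne_zero_of_mul (left_ne_zero_of_mul h5)),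
      right_ne_zero_of_mul (left_ne_zero_of_mul h5)⟩
  have h7 : tpi ^ ((n : ℤ) * w) = tpi ^ (2 * m) * (δ ^ 2 * Q.det / B.det) := by
    have e1 : (tpi ^ w) ^ n = tpi ^ ((n : ℤ) * w) := by
      rw [← zpow_natCast, ← _root_.zpow_mul, mul_comm]
    have e2 : tpi ^ (2 * m) = (tpi ^ m) ^ 2 := by
      rw [← zpow_natCast (tpi ^ m) 2, ← _root_.zpow_mul, mul_comm]
      rfl
    rw [e1] at h3
    rw [e2]
    field_simp
    rw [← h3]
    ring
  have halg : IsAlgebraic ℚ (δ ^ 2 * Q.det / B.det) :=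
    hK _ (K.div_mem (K.mul_mem (K.pow_mem hδ 2) (hdK Q hQ)) (hdK B hB))
  have hq : δ ^ 2 * Q.det / B.det ≠ 0 := div_ne_zero (mul_ne_zero (pow_ne_zero 2 h6.1) h6.2) hBd
  by_contra hne
  rcases lt_or_gt_of_ne hne with hlt | hlt
  · refine tpi_zpow_tr hlt ?_
    have h8 : tpi ^ ((n : ℤ) * w) / tpi ^ (2 * m) = δ ^ 2 * Q.det / B.det := by
      rw [h7]
      have := zpow_ne_zero (2 * m) h4
      field_simp
    rw [h8]
    exact halg
  · refine tpi_zpow_tr hlt ?_
    have h8 : tpi ^ (2 * m) / tpi ^ ((n : ℤ) * w) = (δ ^ 2 * Q.det / B.det)⁻¹ := by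
      rw [h7]
      have := zpow_ne_zero (2 * m) h4
      field_simp
    rw [h8]
    exact halg.inv

/-- **The absolute case.** -/
theorem absolute_rel (hK : ∀ x ∈ K, IsAlgebraic ℚ x) {B Q : ∀ i, Matrix (Fin (n i)) (Fin (n i)) ℂ} {w m : Fin k → ℤ}
    {δ : Fin k → ℂ} (hB : ∀ i a b, B i a b ∈ K) (hQ : ∀ i a b, Q i a b ∈ K) (hδ : ∀ i, δ i ∈ K) (hcl : ∀ i, Clf (B i))
    {Z : ∀ i, Matrix (Fin (n i)) (Fin (n i)) ℂ} (hZ : Cd B Q w m δ tpi Z)
    {F : MvPolynomial (IG B₀ n × IG B₀ n) ℂ} (hF : ∀ m, F.coeff m ∈ K)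
    (h0 : ∀ Y : ∀ i, Matrix (Fin (n i)) (Fin (n i)) ℂ, Cd B Q w m δ tpi Y →
      MvPolynomial.eval (fl (EG (tpi • (1 : Matrix B₀ B₀ ℂ)) Y)) F = 0)
    {z : ℂ} (hz : z ≠ 0) {Y : ∀ i, Matrix (Fin (n i)) (Fin (n i)) ℂ} (hY : Cd B Q w m δ z Y) :
    MvPolynomial.eval (fl (EG (z • (1 : Matrix B₀ B₀ ℂ)) Y)) F = 0 := by
  classical
  have hτ : Transcendental K tpi := tpi_tr hK
  -- transcendental values of `z`
  have htr : ∀ z : ℂ, Transcendental K z → ∀ Y : ∀ i, Matrix (Fin (n i)) (Fin (n i)) ℂ, Cd B Q w m δ z Y →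
      MvPolynomial.eval (fl (EG (z • (1 : Matrix B₀ B₀ ℂ)) Y)) F = 0 := by
    intro z hz Y hY
    obtain ⟨σ, h1, h2⟩ := Pool.Agent.H37PG.exists_aut hz hτ
    have hσK : ∀ x ∈ K, σ x = x := fun x hx => h1 ⟨x, hx⟩
    have h3 := h0 (fun i => (Y i).map σ) (by
      intro i
      obtain ⟨h4, h5⟩ := hY i
      constructor
      · have h6 := congrArg (fun A => Matrix.map A σ) h4
        have h7 : (Q i).map σ = Q i := by
          ext a b
          exact hσK _ (hQ i a b)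
        have h8 : (z ^ (w i) • B i).map σ = tpi ^ (w i) • B i := by
          ext a b
          rw [Matrix.map_apply, Matrix.smul_apply, Matrix.smul_apply, smul_eq_mul, smul_eq_mul, map_mul, map_zpow₀, h2,
            hσK _ (hB i a b)]
        have h9 : (Y i * Q i * (Y i)ᵀ).map σ = (Y i).map σ * (Q i).map σ * ((Y i).map σ)ᵀ := by
          rw [← Matrix.transpose_map]
          have e1 : (Y i * Q i * (Y i)ᵀ).map (σ : ℂ →+* ℂ) = (Y i * Q i).map (σ : ℂ →+* ℂ) * ((Y i)ᵀ).map (σ : ℂ →+* ℂ) :=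
            Matrix.map_mul
          have e2 : (Y i * Q i).map (σ : ℂ →+* ℂ) = (Y i).map (σ : ℂ →+* ℂ) * (Q i).map (σ : ℂ →+* ℂ) := Matrix.map_mul
          rw [e2] at e1
          exact e1
        have h6' : (Y i * Q i * (Y i)ᵀ).map σ = (z ^ (w i) • B i).map σ := h6
        rw [h9, h7, h8] at h6'
        exact h6'
      · rcases h5 with h5 | h5
        · exact Or.inl h5
        · right
          have h6 : ((Y i).map σ).det = σ (Y i).det := (RingHom.map_det (σ : ℂ →+* ℂ) (Y i)).symm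
          rw [h6, h5, map_mul, map_zpow₀, h2, hσK _ (hδ i)])
    have h4 := map_coeffs hF (σ := σ) hσK (fl (EG (z • (1 : Matrix B₀ B₀ ℂ)) Y))
    have h5 : (fun b => σ (fl (EG (z • (1 : Matrix B₀ B₀ ℂ)) Y) b)) =
        fl (EG (tpi • (1 : Matrix B₀ B₀ ℂ)) (fun i => (Y i).map σ)) := by
      have h6 : (EG (z • (1 : Matrix B₀ B₀ ℂ)) Y).map σ = EG (tpi • (1 : Matrix B₀ B₀ ℂ)) (fun i => (Y i).map σ) := by
        rw [EG_map _ (map_zero σ)]
        congr 1
        ext a b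
        rw [Matrix.map_apply, Matrix.smul_apply, Matrix.smul_apply, smul_eq_mul, smul_eq_mul, map_mul, h2,
          Matrix.one_apply, apply_ite σ, map_one, map_zero]
      rw [← h6]
      rfl
    rw [h5, h3] at h4
    exact (map_eq_zero σ).1 h4
  by_cases hza : Transcendental K z
  · exact htr z hza Y hY
  have hza' : IsAlgebraic K z := by
    by_contra h
    exact hza h
  -- the scaling
  let M : ℕ := ∏ i, max 1 (n i)
  have hM : 0 < M := Finset.prod_pos fun i _ => by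
    have := le_max_left 1 (n i)
    omega
  have hMn : ∀ i, n i ≠ 0 → ∃ q : ℕ, M = n i * q := by
    intro i hi
    have h1 : max 1 (n i) ∣ M := Finset.dvd_prod_of_mem _ (Finset.mem_univ i)
    have h2 : max 1 (n i) = n i := by
      rw [max_eq_right]
      omega
    rw [h2] at h1
    exact h1
  have hw : ∀ i, ∃ a : ℤ, (B i ≠ 0 → 2 * a = 2 * M * w i) ∧ (¬ Spf (B i) → (n i : ℤ) * a = 2 * M * m i) := by
    intro i
    by_cases hS : Spf (B i)
    · exact ⟨M * w i, fun _ => by ring, fun h => absurd hS h⟩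
    by_cases hB0 : B i = 0
    · have hni : n i ≠ 0 := by
        intro hni
        apply hS
        have hsub : Subsingleton (Matrix (Fin (n i)) (Fin (n i)) ℂ) := by
          have : IsEmpty (Fin (n i)) := by
            rw [hni]
            exact Fin.isEmpty
          infer_instance
        refine ⟨?_, Subsingleton.elim _ _⟩
        rw [Subsingleton.elim (B i) 1]
        exact isUnit_one
      obtain ⟨q, hq⟩ := hMn i hni
      refine ⟨2 * q * m i, fun h => absurd hB0 h, fun _ => ?_⟩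
      rw [hq]
      push_cast
      ring
    · have hBu : IsUnit (B i) := by
        rcases hcl i with h1 | h1 | h1
        · exact absurd h1 hB0
        · exact absurd h1 hS
        · exact h1.1
      obtain ⟨h1, h2⟩ := hZ i
      have h3 := weight hK (hB i) (hQ i) (hδ i) hBu h1 (h2.resolve_left hS)
      refine ⟨M * w i, fun _ => by ring, fun _ => ?_⟩
      have : (n i : ℤ) * (M * w i) = M * ((n i : ℤ) * w i) := by ring
      rw [this, h3]
      ring
  choose a ha using hw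
  have hcurve : ∀ u : ℂ, u ≠ 0 → Cd B Q w m δ (u ^ (2 * M) * z) (fun i => u ^ (a i) • Y i) := by
    intro u hu i
    obtain ⟨h4, h5⟩ := hY i
    constructor
    · show (u ^ (a i) • Y i) * Q i * (u ^ (a i) • Y i)ᵀ = _
      rw [transpose_smul, Matrix.smul_mul, Matrix.smul_mul, Matrix.mul_smul, h4, smul_smul, smul_smul]
      by_cases hB0 : B i = 0
      · rw [hB0, smul_zero, smul_zero]
      · congr 1
        have h6 := (ha i).1 hB0
        rw [mul_zpow, ← zpow_natCast, ← _root_.zpow_mul, ← zpow_add₀ hu]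
        have h7 : a i + a i = ((2 * M : ℕ) : ℤ) * w i := by
          push_cast
          linarith
        rw [h7]
    · rcases h5 with h5 | h5
      · exact Or.inl h5
      · by_cases hS : Spf (B i)
        · exact Or.inl hS
        · right
          show (u ^ (a i) • Y i).det = _
          rw [det_smul, Fintype.card_fin, h5]
          have h6 := (ha i).2 hS
          have h7 : (u ^ (a i)) ^ (n i) = u ^ (((2 * M : ℕ) : ℤ) * m i) := by
            rw [← zpow_natCast, ← _root_.zpow_mul]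
            congr 1
            push_cast
            linarith
          rw [h7, mul_zpow, ← zpow_natCast u, ← _root_.zpow_mul]
          ring
  have hfin := laurent_one (K := K) hK
    (fun u => fl (EG ((u ^ (2 * M) * z) • (1 : Matrix B₀ B₀ ℂ)) (fun i => u ^ (a i) • Y i))) ?_ F ?_
  · have h1 : (fun i => (1 : ℂ) ^ (a i) • Y i) = Y := by
      funext i
      rw [_root_.one_zpow, one_smul]
    have h2 : ((1 : ℂ) ^ (2 * M) * z) = z := by rw [one_pow, one_mul]
    simp only [h1, h2] at hfin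
    exact hfin
  · rintro ⟨x, y⟩
    rcases x with x | ⟨i, x⟩ <;> rcases y with y | ⟨j, y⟩
    · obtain ⟨N, q, hq⟩ := zpow_laurent ((2 * M : ℕ) : ℤ) (z * (1 : Matrix B₀ B₀ ℂ) x y)
      refine ⟨N, q, fun u hu => ?_⟩
      rw [← hq u hu]
      congr 1
      show (u ^ (2 * M) * z) * (1 : Matrix B₀ B₀ ℂ) x y = _
      rw [zpow_natCast, mul_assoc]
    · exact ⟨0, 0, fun u _ => by
        rw [Polynomial.eval_zero]
        exact mul_zero _⟩
    · exact ⟨0, 0, fun u _ => by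
        rw [Polynomial.eval_zero]
        exact mul_zero _⟩
    · by_cases hij : i = j
      · subst hij
        obtain ⟨N, q, hq⟩ := zpow_laurent (a i) (Y i x y)
        refine ⟨N, q, fun u hu => ?_⟩
        rw [← hq u hu]
        congr 1
        show blockDiagonal' (fun i => u ^ (a i) • Y i) ⟨i, x⟩ ⟨i, y⟩ = _
        rw [blockDiagonal'_apply_eq]
        rfl
      · refine ⟨0, 0, fun u _ => ?_⟩
        rw [Polynomial.eval_zero]
        have h1 : fl (EG ((u ^ (2 * M) * z) • (1 : Matrix B₀ B₀ ℂ)) (fun i => u ^ (a i) • Y i))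
            (Sum.inr ⟨i, x⟩, Sum.inr ⟨j, y⟩) = 0 := by
          show blockDiagonal' (fun i => u ^ (a i) • Y i) ⟨i, x⟩ ⟨j, y⟩ = 0
          exact blockDiagonal'_apply_ne _ _ _ hij
        show u ^ 0 * fl (EG ((u ^ (2 * M) * z) • (1 : Matrix B₀ B₀ ℂ)) (fun i => u ^ (a i) • Y i))
            (Sum.inr ⟨i, x⟩, Sum.inr ⟨j, y⟩) = 0
        rw [h1, mul_zero]
  · intro u hu
    have hu0 : u ≠ 0 := by
      rintro rfl
      exact hu isAlgebraic_zero
    refine htr _ ?_ _ (hcurve u hu0)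
    intro h
    apply hu
    have h1 : IsAlgebraic K (u ^ (2 * M)) := by
      have h2 : u ^ (2 * M) = (u ^ (2 * M) * z) * z⁻¹ := by
        rw [mul_assoc, mul_inv_cancel₀ hz, mul_one]
      rw [h2]
      exact h.mul hza'.inv
    exact h1.of_pow (by omega)

end absolute

end Pool.Agent.U220.BD
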